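import Mathlib

/-!
# Irreducible vectors of a lattice

Let `Λ` be a group of integral vectors. A nonzero vector of `Λ` is *short* if it is not the sum of two
strictly shorter vectors of `Λ`. The short vectors generate `Λ`, and two short vectors which are
congruent modulo `2 Λ` are equal or opposite. So there are at most `2 (2 ^ r - 1)` short vectors,
where `r` is the rank of `Λ`.
-/

set_option autoImplicit false

namespace Pool.Agent.K4H34.VR

open Module

variable {X : Type*} [Fintype X]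

/-- The square of the length. -/
def nrm (c : X → ℤ) : ℤ := ∑ x, c x ^ 2

/-- The inner product. -/
def inn (c d : X → ℤ) : ℤ := ∑ x, c x * d x

/-- The nonzero vectors of `Λ` which are not the sum of two shorter vectors of `Λ`. -/
def Short (Λ : Submodule ℤ (X → ℤ)) : Set (X → ℤ) :=
  {v | v ∈ Λ ∧ v ≠ 0 ∧ ∀ x ∈ Λ, nrm x < nrm v → ¬ nrm (v - x) < nrm v}

theorem nrm_nonneg (c : X → ℤ) : 0 ≤ nrm c := Finset.sum_nonneg fun _ _ => sq_nonneg _

theorem nrm_eq_zero {c : X → ℤ} : nrm c = 0 ↔ c = 0 := by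
  unfold nrm
  rw [Finset.sum_eq_zero_iff_of_nonneg fun x _ => sq_nonneg _]
  constructor
  · intro h
    funext x
    exact pow_eq_zero_iff (two_ne_zero) |>.1 (h x (Finset.mem_univ x))
  · rintro rfl x _
    simp

theorem nrm_pos {c : X → ℤ} (h : c ≠ 0) : 0 < nrm c :=
  lt_of_le_of_ne (nrm_nonneg c) fun h' => h (nrm_eq_zero.1 h'.symm)

theorem nrm_neg (c : X → ℤ) : nrm (-c) = nrm c := by
  unfold nrm
  exact Finset.sum_congr rfl fun x _ => by simp

theorem nrm_add (c d : X → ℤ) : nrm (c + d) = nrm c + 2 * inn c d + nrm d := by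
  unfold nrm inn
  rw [Finset.mul_sum, ← Finset.sum_add_distrib, ← Finset.sum_add_distrib]
  exact Finset.sum_congr rfl fun x _ => by rw [Pi.add_apply]; ring

theorem nrm_smul (a : ℤ) (c : X → ℤ) : nrm (a • c) = a ^ 2 * nrm c := by
  unfold nrm
  rw [Finset.mul_sum]
  exact Finset.sum_congr rfl fun x _ => by rw [Pi.smul_apply, smul_eq_mul]; ring

theorem inn_smul (a : ℤ) (c d : X → ℤ) : inn c (a • d) = a * inn c d := by
  unfold inn
  rw [Finset.mul_sum]
  exact Finset.sum_congr rfl fun x _ => by rw [Pi.smul_apply, smul_eq_mul]; ring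

theorem inn_sq_le (c d : X → ℤ) : inn c d ^ 2 ≤ nrm c * nrm d :=
  Finset.sum_mul_sq_le_sq_mul_sq _ _ _

theorem nrm_comp (c : X → ℤ) (e : X ≃ X) : nrm (fun x => c (e x)) = nrm c := by
  unfold nrm
  exact Equiv.sum_comp e (fun x => c x ^ 2)

/-- The short vectors generate `Λ`. -/
theorem span_short (Λ : Submodule ℤ (X → ℤ)) : Submodule.span ℤ (Short Λ) = Λ := by
  apply le_antisymm
  · rw [Submodule.span_le]
    exact fun v hv => hv.1
  · have key : ∀ n : ℕ, ∀ v ∈ Λ, (nrm v).toNat = n → v ∈ Submodule.span ℤ (Short Λ) := by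
      intro n
      induction n using Nat.strong_induction_on with
      | _ n ih =>
        intro v hv hn
        by_cases h0 : v = 0
        · rw [h0]
          exact Submodule.zero_mem _
        by_cases hs : v ∈ Short Λ
        · exact Submodule.subset_span hs
        · have h1 : ∃ x ∈ Λ, nrm x < nrm v ∧ nrm (v - x) < nrm v := by
            by_contra hcon
            push Not at hcon
            exact hs ⟨hv, h0, fun x hx hlt => not_lt.2 (hcon x hx hlt)⟩
          obtain ⟨x, hx, h2, h3⟩ := h1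
          have e1 := ih (nrm x).toNat (by have := nrm_nonneg x; have := nrm_nonneg v; omega) x hx rfl
          have e2 := ih (nrm (v - x)).toNat
            (by have := nrm_nonneg (v - x); have := nrm_nonneg v; omega) (v - x)
            (Submodule.sub_mem _ hv hx) rfl
          have e3 := Submodule.add_mem _ e1 e2
          rwa [add_sub_cancel] at e3
    exact fun v hv => key _ v hv rfl

theorem short_neg {Λ : Submodule ℤ (X → ℤ)} {v : X → ℤ} (hv : v ∈ Short Λ) : -v ∈ Short Λ := by
  refine ⟨Submodule.neg_mem _ hv.1, neg_ne_zero.2 hv.2.1, fun x hx h1 h2 => ?_⟩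
  rw [nrm_neg] at h1 h2
  refine hv.2.2 (-x) (Submodule.neg_mem _ hx) (by rwa [nrm_neg]) ?_
  rw [← nrm_neg]
  have : -(v - -x) = -v - x := by abel
  rwa [this]

theorem short_comp {Λ : Submodule ℤ (X → ℤ)} (e : X ≃ X)
    (h1 : ∀ c ∈ Λ, (fun x => c (e x)) ∈ Λ) (h2 : ∀ c ∈ Λ, (fun x => c (e.symm x)) ∈ Λ)
    {v : X → ℤ} (hv : v ∈ Short Λ) : (fun x => v (e x)) ∈ Short Λ := by
  refine ⟨h1 v hv.1, fun h => hv.2.1 ?_, fun x hx h3 h4 => ?_⟩
  · funext y
    have := congrFun h (e.symm y)
    simpa using this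
  · rw [nrm_comp] at h3 h4
    refine hv.2.2 _ (h2 x hx) (by rwa [nrm_comp x e.symm]) ?_
    have h5 : (v - fun y => x (e.symm y)) = fun y => ((fun x => v (e x)) - x) (e.symm y) := by
      funext y
      simp
    rw [h5, nrm_comp _ e.symm]
    exact h4

/-- One of two congruent short vectors. -/
theorem short_aux {Λ : Submodule ℤ (X → ℤ)} {v u : X → ℤ} (hv : v ∈ Short Λ) (hu : u ∈ Λ)
    (hle : nrm (v + (2 : ℤ) • u) ≤ nrm v) : u = 0 ∨ v + u = 0 := by
  by_cases h0 : u = 0
  · exact Or.inl h0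
  right
  have hup := nrm_pos h0
  rw [nrm_add, inn_smul, nrm_smul] at hle
  have h1 : nrm (v + u) = nrm v + 2 * inn v u + nrm u := nrm_add v u
  have h2 : nrm (v + u) < nrm v := by omega
  have h3 := hv.2.2 (v + u) (Submodule.add_mem _ hv.1 hu) h2
  have h4 : v - (v + u) = -u := by abel
  rw [h4, nrm_neg, not_lt] at h3
  have h5 := inn_sq_le v u
  have h6 : nrm u ≤ - inn v u := by omega
  have h7 : nrm u * nrm u ≤ nrm v * nrm u := by nlinarith
  have h8 : nrm u ≤ nrm v := le_of_mul_le_mul_right h7 hup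
  have h9 : nrm u = nrm v := le_antisymm h8 h3
  rw [← h9] at h5
  have h10 : - inn v u ≤ nrm u := by nlinarith
  apply nrm_eq_zero.1
  rw [h1]
  have := nrm_nonneg (v + u)
  omega

theorem short_congr {Λ : Submodule ℤ (X → ℤ)} {v w u : X → ℤ} (hv : v ∈ Short Λ)
    (hw : w ∈ Short Λ) (hu : u ∈ Λ) (h : w = v + (2 : ℤ) • u) : w = v ∨ w = -v := by
  rcases le_total (nrm w) (nrm v) with h1 | h1
  · rw [h] at h1
    rcases short_aux hv hu h1 with h2 | h2
    · left
      rw [h, h2, smul_zero, add_zero]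
    · right
      rw [h, two_smul, ← add_assoc, h2, zero_add]
      exact (neg_eq_of_add_eq_zero_right h2).symm
  · have h' : v = w + (2 : ℤ) • (-u) := by
      rw [h, smul_neg]
      abel
    rw [h'] at h1
    have h2 := short_aux hw (Submodule.neg_mem _ hu) (by rw [← h'] at h1 ⊢; exact h1)
    rcases h2 with h2 | h2
    · left
      rw [h', h2, smul_zero, add_zero]
    · right
      rw [h', two_smul, ← add_assoc, h2, zero_add, neg_neg]
      exact sub_eq_zero.1 (by rw [sub_eq_add_neg]; exact h2)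

theorem short_not_two {Λ : Submodule ℤ (X → ℤ)} {v u : X → ℤ} (hv : v ∈ Short Λ)
    (hu : u ∈ Λ) : v ≠ (2 : ℤ) • u := by
  intro h
  have h1 : nrm v = 4 * nrm u := by
    rw [h, nrm_smul]
    norm_num
  have h2 := nrm_pos hv.2.1
  refine hv.2.2 u hu (by omega) ?_
  have h3 : v - u = u := by
    rw [h, two_smul]
    abel
  rw [h3]
  omega

/-- **There are at most `2 (2 ^ r - 1)` short vectors.** -/
theorem card_short (Λ : Submodule ℤ (X → ℤ)) :
    (Short Λ).Finite ∧ (Short Λ).ncard ≤ 2 ^ (finrank ℤ Λ + 1) - 2 := by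
  classical
  set r := finrank ℤ Λ with hr
  let b : Basis (Fin r) ℤ Λ := Module.finBasis ℤ Λ
  let f : Λ → (Fin r → ZMod 2) := fun v i => ((b.repr v i : ℤ) : ZMod 2)
  have hf : ∀ v w : Λ, f v = f w → ∃ u : Λ, w = v + (2 : ℤ) • u := by
    intro v w h
    have h1 : ∀ i, ∃ m : ℤ, b.repr w i = b.repr v i + 2 * m := by
      intro i
      have h2 : ((b.repr v i : ℤ) : ZMod 2) = ((b.repr w i : ℤ) : ZMod 2) := congrFun h i
      rw [ZMod.intCast_eq_intCast_iff_dvd_sub] at h2
      obtain ⟨m, hm⟩ := h2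
      exact ⟨m, by push_cast at hm; linarith⟩
    choose m hm using h1
    refine ⟨∑ i, m i • b i, b.repr.injective ?_⟩
    ext i
    rw [hm i, map_add, map_smul, Finsupp.add_apply, Finsupp.smul_apply]
    congr 2
    rw [map_sum, Finsupp.finsetSum_apply]
    simp [Finsupp.single_apply]
  -- the classes
  let P : (Fin r → ZMod 2) → Prop := fun t => ∃ v : Λ, (v : X → ℤ) ∈ Short Λ ∧ f v = t
  let g : (Fin r → ZMod 2) → (X → ℤ) := fun t =>
    if h : P t then ((Classical.choose h : Λ) : X → ℤ) else 0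
  let S : Finset (X → ℤ) := ((Finset.univ : Finset (Fin r → ZMod 2)).erase 0).image g ∪
    ((Finset.univ : Finset (Fin r → ZMod 2)).erase 0).image (fun t => - g t)
  have hsub : Short Λ ⊆ (S : Set (X → ℤ)) := by
    intro v hv
    have hP : P (f ⟨v, hv.1⟩) := ⟨⟨v, hv.1⟩, hv, rfl⟩
    have hg : g (f ⟨v, hv.1⟩) = ((Classical.choose hP : Λ) : X → ℤ) := dif_pos hP
    obtain ⟨h1, h2⟩ := Classical.choose_spec hP
    obtain ⟨u, hu⟩ := hf _ _ h2
    have h3 : v = ((Classical.choose hP : Λ) : X → ℤ) + (2 : ℤ) • (u : X → ℤ) := by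
      have := congrArg (Subtype.val) hu
      simpa using this
    have hne : f ⟨v, hv.1⟩ ≠ 0 := by
      intro h4
      obtain ⟨w, hw⟩ := hf 0 ⟨v, hv.1⟩ (by rw [h4]; funext i; simp [f])
      have h5 : v = (2 : ℤ) • (w : X → ℤ) := by
        have := congrArg (Subtype.val) hw
        simpa using this
      exact short_not_two hv w.2 h5
    rw [Finset.mem_coe, Finset.mem_union, Finset.mem_image, Finset.mem_image]
    rcases short_congr h1 hv u.2 h3 with h4 | h4
    · exact Or.inl ⟨_, Finset.mem_erase.2 ⟨hne, Finset.mem_univ _⟩, by rw [hg, ← h4]⟩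
    · exact Or.inr ⟨_, Finset.mem_erase.2 ⟨hne, Finset.mem_univ _⟩, by rw [hg, ← h4]⟩
  have hcard : S.card ≤ 2 ^ (r + 1) - 2 := by
    have h1 : ((Finset.univ : Finset (Fin r → ZMod 2)).erase 0).card = 2 ^ r - 1 := by
      rw [Finset.card_erase_of_mem (Finset.mem_univ _), Finset.card_univ, Fintype.card_fun,
        ZMod.card, Fintype.card_fin]
    have h2 : S.card ≤ (2 ^ r - 1) + (2 ^ r - 1) := by
      refine (Finset.card_union_le _ _).trans (add_le_add ?_ ?_)
      · exact Finset.card_image_le.trans_eq h1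
      · exact Finset.card_image_le.trans_eq h1
    rw [pow_succ]
    omega
  refine ⟨S.finite_toSet.subset hsub, ?_⟩
  rw [← Set.ncard_coe_finset] at hcard
  exact (Set.ncard_le_ncard hsub S.finite_toSet).trans hcard

end Pool.Agent.K4H34.VR
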